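import Pool.Agent.W890.SF.Stm

/-!
SAM-SHF (helper412): perfect matching by shifting.
-/

set_option autoImplicit false
set_option linter.unusedSectionVars false

namespace Pool.Agent.W412.SAM

open Finset Pool.Agent.W890.SF

/-- a matching given by a table: column zero lies in `A`, the other columns in `B` -/
structure Tab {α : Type} [DecidableEq α] (k : ℕ) (A B : Finset α) (H : Finset (Finset α))
    (ι : Type) (φ : ι → Fin k → α) : Prop where
  inj : ∀ i c i' c', φ i c = φ i' c' → i = i' ∧ c = c'
  memA : ∀ i c, c.val = 0 → φ i c ∈ A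
  memB : ∀ i c, c.val ≠ 0 → φ i c ∈ B
  edge : ∀ i, univ.image (φ i) ∈ H

/-- the shifted rows -/
def row {α : Type} {K : ℕ} {ι : Type} (z : Fin (K + 1) → α) (φ : ι → Fin (K + 1) → α)
    (r : {c : Fin (K + 1) // c ≠ 0} ↪ ι) (j c : Fin (K + 1)) : α :=
  if h : c = j then z j else φ (r ⟨c - j, sub_ne_zero.2 h⟩) c

section

variable {α : Type} [DecidableEq α] {K : ℕ} {A B : Finset α} {H : Finset (Finset α)} {ι : Type}
  {φ : ι → Fin (K + 1) → α} {z : Fin (K + 1) → α}

theorem row_eq (r : {c : Fin (K + 1) // c ≠ 0} ↪ ι) (j : Fin (K + 1)) :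
    row z φ r j j = z j := by
  unfold row
  rw [dif_pos rfl]

theorem row_ne (r : {c : Fin (K + 1) // c ≠ 0} ↪ ι) {j c : Fin (K + 1)} (h : c ≠ j) :
    row z φ r j c = φ (r ⟨c - j, sub_ne_zero.2 h⟩) c := by
  unfold row
  rw [dif_neg h]

theorem row_inj (hT : Tab (K + 1) A B H ι φ) (hz : Function.Injective z)
    (hzφ : ∀ c i c', z c ≠ φ i c') (r : {c : Fin (K + 1) // c ≠ 0} ↪ ι)
    {j c j' c' : Fin (K + 1)} (h : row z φ r j c = row z φ r j' c') : j = j' ∧ c = c' := by
  by_cases h1 : c = j
  · subst h1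
    by_cases h2 : c' = j'
    · subst h2
      rw [row_eq, row_eq] at h
      exact ⟨hz h, hz h⟩
    · rw [row_eq, row_ne r h2] at h
      exact absurd h (hzφ _ _ _)
  · by_cases h2 : c' = j'
    · subst h2
      rw [row_eq, row_ne r h1] at h
      exact absurd h.symm (hzφ _ _ _)
    · rw [row_ne r h1, row_ne r h2] at h
      obtain ⟨h3, h4⟩ := hT.inj _ _ _ _ h
      have h5 := congrArg Subtype.val (r.injective h3)
      simp only at h5
      subst h4
      exact ⟨sub_right_injective h5, rfl⟩

theorem shift [Fintype ι] (hT : Tab (K + 1) A B H ι φ) (hz : Function.Injective z)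
    (hzA : z 0 ∈ A) (hzB : ∀ c, c ≠ 0 → z c ∈ B) (hzφ : ∀ c i c', z c ≠ φ i c')
    (r : {c : Fin (K + 1) // c ≠ 0} ↪ ι) (hall : ∀ j, univ.image (row z φ r j) ∈ H) :
    ∃ (ι' : Type) (_ : Fintype ι') (φ' : ι' → Fin (K + 1) → α),
      Fintype.card ι' = Fintype.card ι + 1 ∧ Tab (K + 1) A B H ι' φ' := by
  classical
  set s : Finset ι := univ.image r with hs
  have hsc : s.card = K := by
    rw [hs, card_image_of_injective _ r.injective, card_univ, Fintype.card_subtype_compl,
      Fintype.card_fin, Fintype.card_subtype_eq]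
    rfl
  have hle : K ≤ Fintype.card ι := by
    rw [← hsc]
    exact card_le_univ s
  refine ⟨{i // i ∈ sᶜ} ⊕ Fin (K + 1), inferInstance,
    Sum.elim (fun i => φ i.1) (fun j => row z φ r j), ?_, ?_⟩
  · rw [Fintype.card_sum, Fintype.card_coe, card_compl, hsc, Fintype.card_fin]
    omega
  · have hmix : ∀ (i : {i // i ∈ sᶜ}) (c j c' : Fin (K + 1)), φ i.1 c ≠ row z φ r j c' := by
      intro i c j c' h
      by_cases h1 : c' = j
      · subst h1
        rw [row_eq] at h
        exact hzφ _ _ _ h.symm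
      · rw [row_ne r h1] at h
        have h2 := (hT.inj _ _ _ _ h).1
        have h3 := i.2
        rw [mem_compl] at h3
        apply h3
        rw [h2]
        exact mem_image_of_mem _ (mem_univ _)
    refine ⟨?_, ?_, ?_, ?_⟩
    · rintro (i | j) c (i' | j') c' h
      · obtain ⟨h1, h2⟩ := hT.inj _ _ _ _ h
        exact ⟨congrArg Sum.inl (Subtype.ext h1), h2⟩
      · exact absurd h (hmix _ _ _ _)
      · exact absurd h.symm (hmix _ _ _ _)
      · obtain ⟨h1, h2⟩ := row_inj hT hz hzφ r h
        exact ⟨congrArg Sum.inr h1, h2⟩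
    · rintro (i | j) c hc
      · exact hT.memA _ _ hc
      · have hc0 : c = 0 := Fin.ext hc
        show row z φ r j c ∈ A
        by_cases h1 : c = j
        · subst h1
          rw [row_eq, hc0]
          exact hzA
        · rw [row_ne r h1]
          exact hT.memA _ _ hc
    · rintro (i | j) c hc
      · exact hT.memB _ _ hc
      · have hc0 : c ≠ 0 := fun h => hc (by rw [h]; rfl)
        show row z φ r j c ∈ B
        by_cases h1 : c = j
        · subst h1
          rw [row_eq]
          exact hzB _ hc0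
        · rw [row_ne r h1]
          exact hT.memB _ _ hc
    · rintro (i | j)
      · exact hT.edge _
      · exact hall j

/-- the shifted row without its new vertex -/
def srow (z : Fin (K + 1) → α) (φ : ι → Fin (K + 1) → α)
    (r : {c : Fin (K + 1) // c ≠ 0} ↪ ι) (j : Fin (K + 1)) : Finset α :=
  (univ.erase j).image (row z φ r j)

theorem insert_srow (r : {c : Fin (K + 1) // c ≠ 0} ↪ ι) (j : Fin (K + 1)) :
    insert (z j) (srow z φ r j) = univ.image (row z φ r j) := by
  unfold srow
  have h : (univ : Finset (Fin (K + 1))) = insert j (univ.erase j) :=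
    (insert_erase (mem_univ j)).symm
  conv_rhs => rw [h]
  rw [image_insert, row_eq]

theorem srow_mem (hAB : Disjoint A B) (hT : Tab (K + 1) A B H ι φ) (hz : Function.Injective z)
    (hzφ : ∀ c i c', z c ≠ φ i c') (r : {c : Fin (K + 1) // c ≠ 0} ↪ ι) (j : Fin (K + 1)) :
    srow z φ r j ∈ tys (K + 1) (if j = 0 then 0 else 1) A B (z j) := by
  unfold tys
  rw [mem_filter, mem_powersetCard]
  refine ⟨⟨?_, ?_⟩, ?_⟩
  · intro x hx
    unfold srow at hx
    rw [mem_image] at hx
    obtain ⟨c, hc, rfl⟩ := hx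
    have hcj : c ≠ j := (mem_erase.1 hc).1
    rw [row_ne r hcj, mem_erase, mem_union]
    refine ⟨(hzφ _ _ _).symm, ?_⟩
    by_cases h0 : c.val = 0
    · exact Or.inl (hT.memA _ _ h0)
    · exact Or.inr (hT.memB _ _ h0)
  · unfold srow
    rw [card_image_of_injective, card_erase_of_mem (mem_univ _), card_univ, Fintype.card_fin]
    intro c c' h
    exact (row_inj hT hz hzφ r h).2
  · by_cases h0 : j = 0
    · rw [if_pos h0, card_eq_zero, ← disjoint_iff_inter_eq_empty]
      refine Disjoint.mono_left ?_ hAB.symm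
      intro x hx
      unfold srow at hx
      rw [mem_image] at hx
      obtain ⟨c, hc, rfl⟩ := hx
      have hcj : c ≠ j := (mem_erase.1 hc).1
      rw [row_ne r hcj]
      refine hT.memB _ _ fun h1 => hcj ?_
      rw [h0]
      exact Fin.ext h1
    · rw [if_neg h0, card_eq_one]
      refine ⟨row z φ r j 0, ?_⟩
      ext x
      rw [mem_inter, mem_singleton]
      constructor
      · rintro ⟨hx, hxA⟩
        unfold srow at hx
        rw [mem_image] at hx
        obtain ⟨c, hc, rfl⟩ := hx
        have hcj : c ≠ j := (mem_erase.1 hc).1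
        have h1 : c = 0 := by
          by_contra h2
          rw [row_ne r hcj] at hxA
          have h3 : φ (r ⟨c - j, sub_ne_zero.2 hcj⟩) c ∈ B :=
            hT.memB _ _ fun h4 => h2 (Fin.ext h4)
          exact disjoint_left.1 hAB hxA h3
        rw [h1]
      · rintro rfl
        have h1 : (0 : Fin (K + 1)) ≠ j := fun h => h0 h.symm
        refine ⟨?_, ?_⟩
        · unfold srow
          exact mem_image_of_mem _ (mem_erase.2 ⟨h1, mem_univ _⟩)
        · rw [row_ne r h1]
          exact hT.memA _ _ rfl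

theorem srow_inj (hT : Tab (K + 1) A B H ι φ) (j : Fin (K + 1))
    (r r' : {c : Fin (K + 1) // c ≠ 0} ↪ ι) (h : srow z φ r j = srow z φ r' j) : r = r' := by
  apply Function.Embedding.ext
  rintro ⟨i, hi⟩
  have hc : i + j ≠ j := fun h1 => hi (by simpa using h1)
  have h1 : row z φ r j (i + j) ∈ srow z φ r j := by
    unfold srow
    exact mem_image_of_mem _ (mem_erase.2 ⟨hc, mem_univ _⟩)
  rw [h] at h1
  unfold srow at h1
  rw [mem_image] at h1
  obtain ⟨c', hc', h2⟩ := h1
  have hcj : c' ≠ j := (mem_erase.1 hc').1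
  rw [row_ne r hc, row_ne r' hcj] at h2
  obtain ⟨h3, h4⟩ := hT.inj _ _ _ _ h2
  subst h4
  have h5 : (⟨i + j - j, sub_ne_zero.2 hc⟩ : {c : Fin (K + 1) // c ≠ 0}) = ⟨i, hi⟩ :=
    Subtype.ext (add_sub_cancel_right i j)
  rw [h5] at h3
  exact h3.symm

theorem count [Fintype ι] (hAB : Disjoint A B) (hT : Tab (K + 1) A B H ι φ)
    (hz : Function.Injective z) (hzφ : ∀ c i c', z c ≠ φ i c')
    (hbad : ∀ r : {c : Fin (K + 1) // c ≠ 0} ↪ ι, ∃ j, univ.image (row z φ r j) ∉ H) :
    (Fintype.card ι).descFactorial K ≤ ∑ j : Fin (K + 1),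
      (tys (K + 1) (if j = 0 then 0 else 1) A B (z j) \
        ty (K + 1) (if j = 0 then 0 else 1) H A B (z j)).card := by
  classical
  have hcard : Fintype.card ({c : Fin (K + 1) // c ≠ 0} ↪ ι) =
      (Fintype.card ι).descFactorial K := by
    rw [Fintype.card_embedding_eq, Fintype.card_subtype_compl, Fintype.card_fin,
      Fintype.card_subtype_eq]
    rfl
  rw [← hcard, ← card_univ]
  have hsub : (univ : Finset ({c : Fin (K + 1) // c ≠ 0} ↪ ι)) ⊆
      (univ : Finset (Fin (K + 1))).biUnion fun j =>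
        univ.filter (fun r => univ.image (row z φ r j) ∉ H) := by
    intro r _
    obtain ⟨j, hj⟩ := hbad r
    rw [mem_biUnion]
    exact ⟨j, mem_univ _, mem_filter.2 ⟨mem_univ _, hj⟩⟩
  refine (card_le_card hsub).trans (card_biUnion_le.trans ?_)
  refine sum_le_sum fun j _ => ?_
  refine card_le_card_of_injOn (fun r => srow z φ r j) ?_ ?_
  · intro r hr
    have hr' := (mem_filter.1 (mem_coe.1 hr)).2
    rw [mem_coe, mem_sdiff]
    refine ⟨srow_mem hAB hT hz hzφ r j, fun h => hr' ?_⟩
    unfold ty at h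
    have h1 := (mem_filter.1 h).2
    rwa [insert_srow] at h1
  · intro r _ r' _ h
    exact srow_inj hT j r r' h

/-- adding a row -/
theorem addrow [Fintype ι] (hAB : Disjoint A B) (hT : Tab (K + 1) A B H ι φ) {a : α}
    {S : Finset α} (haA : a ∈ A) (haφ : ∀ i c, a ≠ φ i c) (hSB : S ⊆ B) (hS : S.card = K)
    (hSφ : ∀ x ∈ S, ∀ i c, x ≠ φ i c) (hH : insert a S ∈ H) :
    ∃ (ι' : Type) (_ : Fintype ι') (φ' : ι' → Fin (K + 1) → α),
      Fintype.card ι' = Fintype.card ι + 1 ∧ Tab (K + 1) A B H ι' φ' := by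
  classical
  have hcard : Fintype.card {c : Fin (K + 1) // c ≠ 0} = Fintype.card {x // x ∈ S} := by
    rw [Fintype.card_subtype_compl, Fintype.card_fin, Fintype.card_subtype_eq, Fintype.card_coe,
      hS]
    rfl
  let e : {c : Fin (K + 1) // c ≠ 0} ≃ {x // x ∈ S} := Fintype.equivOfCardEq hcard
  let w : Fin (K + 1) → α := fun c => if h : c = 0 then a else (e ⟨c, h⟩ : α)
  have hw0 : w 0 = a := by
    show (if h : (0 : Fin (K + 1)) = 0 then a else (e ⟨0, h⟩ : α)) = a
    rw [dif_pos rfl]
  have hw1 : ∀ c (h : c ≠ 0), w c = (e ⟨c, h⟩ : α) := by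
    intro c h
    show (if h : c = 0 then a else (e ⟨c, h⟩ : α)) = _
    rw [dif_neg h]
  have haS : a ∉ S := fun h => disjoint_left.1 hAB haA (hSB h)
  have hwS : ∀ c, c ≠ 0 → w c ∈ S := by
    intro c h
    rw [hw1 c h]
    exact (e ⟨c, h⟩).2
  have hwφ : ∀ c i c', w c ≠ φ i c' := by
    intro c i c'
    by_cases h : c = 0
    · rw [h, hw0]
      exact haφ _ _
    · exact hSφ _ (hwS c h) _ _
  have hwinj : ∀ c c', w c = w c' → c = c' := by
    intro c c' h
    by_cases h1 : c = 0
    · by_cases h2 : c' = 0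
      · rw [h1, h2]
      · rw [h1, hw0] at h
        exact absurd (h ▸ hwS c' h2) haS
    · by_cases h2 : c' = 0
      · rw [h2, hw0] at h
        exact absurd (h ▸ hwS c h1) haS
      · rw [hw1 c h1, hw1 c' h2] at h
        have h3 := e.injective (Subtype.ext h)
        exact congrArg Subtype.val h3
  have hwim : univ.image w = insert a S := by
    ext x
    rw [mem_image, mem_insert]
    constructor
    · rintro ⟨c, _, rfl⟩
      by_cases h : c = 0
      · left; rw [h, hw0]
      · right; exact hwS c h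
    · rintro (rfl | hx)
      · exact ⟨0, mem_univ _, hw0⟩
      · refine ⟨(e.symm ⟨x, hx⟩).1, mem_univ _, ?_⟩
        rw [hw1 _ (e.symm ⟨x, hx⟩).2]
        rw [Subtype.coe_eta, Equiv.apply_symm_apply]
  refine ⟨ι ⊕ Unit, inferInstance, Sum.elim φ (fun _ => w), ?_, ?_⟩
  · rw [Fintype.card_sum, Fintype.card_unit]
  · refine ⟨?_, ?_, ?_, ?_⟩
    · rintro (i | j) c (i' | j') c' h
      · obtain ⟨h1, h2⟩ := hT.inj _ _ _ _ h
        exact ⟨congrArg Sum.inl h1, h2⟩
      · exact absurd h.symm (hwφ _ _ _)
      · exact absurd h (hwφ _ _ _)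
      · exact ⟨rfl, hwinj _ _ h⟩
    · rintro (i | j) c hc
      · exact hT.memA _ _ hc
      · have hc0 : c = 0 := Fin.ext hc
        show w c ∈ A
        rw [hc0, hw0]
        exact haA
    · rintro (i | j) c hc
      · exact hT.memB _ _ hc
      · exact hSB (hwS c fun h => hc (by rw [h]; rfl))
    · rintro (i | j)
      · exact hT.edge _
      · show univ.image w ∈ H
        rw [hwim]
        exact hH

/-- a full table gives a perfect matching -/
theorem full [Fintype ι] (hAB : Disjoint A B) (hT : Tab (K + 1) A B H ι φ)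
    (hc : Fintype.card ι = A.card) (hBA : B.card = K * A.card) :
    ∃ M ⊆ H, Mtch M ∧ M.biUnion id = A ∪ B := by
  classical
  refine ⟨univ.image (fun i => univ.image (φ i)), ?_, ?_, ?_⟩
  · intro e he
    rw [mem_image] at he
    obtain ⟨i, _, rfl⟩ := he
    exact hT.edge i
  · intro e he e' he' hne
    rw [mem_image] at he he'
    obtain ⟨i, _, rfl⟩ := he
    obtain ⟨i', _, rfl⟩ := he'
    rw [disjoint_left]
    intro x hx hx'
    rw [mem_image] at hx hx'
    obtain ⟨c, _, rfl⟩ := hx
    obtain ⟨c', _, h⟩ := hx'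
    have := (hT.inj _ _ _ _ h).1
    exact hne (by rw [this])
  · apply eq_of_subset_of_card_le
    · intro x hx
      rw [mem_biUnion] at hx
      obtain ⟨e, he, hxe⟩ := hx
      rw [mem_image] at he
      obtain ⟨i, _, rfl⟩ := he
      change x ∈ univ.image (φ i) at hxe
      rw [mem_image] at hxe
      obtain ⟨c, _, rfl⟩ := hxe
      rw [mem_union]
      by_cases h0 : c.val = 0
      · exact Or.inl (hT.memA _ _ h0)
      · exact Or.inr (hT.memB _ _ h0)
    · have h1 : (A ∪ B).card = (univ : Finset (ι × Fin (K + 1))).card := by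
        rw [card_union_of_disjoint hAB, card_univ, Fintype.card_prod, Fintype.card_fin, hc, hBA]
        ring
      rw [h1]
      refine card_le_card_of_injOn (fun p => φ p.1 p.2) ?_ ?_
      · intro p _
        rw [mem_coe, mem_biUnion]
        exact ⟨univ.image (φ p.1), mem_image_of_mem _ (mem_univ _),
          mem_image_of_mem _ (mem_univ _)⟩
      · intro p _ p' _ h
        obtain ⟨h1, h2⟩ := hT.inj _ _ _ _ h
        exact Prod.ext h1 h2

/-- uncovered vertices -/
theorem freeA [Fintype ι] (hAB : Disjoint A B) (hT : Tab (K + 1) A B H ι φ) :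
    ∃ A' ⊆ A, A'.card + Fintype.card ι = A.card ∧ ∀ a ∈ A', ∀ i c, a ≠ φ i c := by
  classical
  refine ⟨A \ univ.image (fun i => φ i 0), sdiff_subset, ?_, ?_⟩
  · have h1 : (univ.image (fun i => φ i 0)) ⊆ A := by
      intro x hx
      rw [mem_image] at hx
      obtain ⟨i, _, rfl⟩ := hx
      exact hT.memA _ _ rfl
    have h2 : (univ.image (fun i => φ i 0)).card = Fintype.card ι := by
      rw [card_image_of_injective, card_univ]
      intro i i' h
      exact (hT.inj _ _ _ _ h).1
    rw [← h2]
    exact card_sdiff_add_card_eq_card h1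
  · intro a ha i c h
    rw [mem_sdiff] at ha
    by_cases h0 : c.val = 0
    · have hc0 : c = 0 := Fin.ext h0
      subst hc0
      exact ha.2 (by rw [h]; exact mem_image_of_mem (fun i => φ i 0) (mem_univ i))
    · have h1 := hT.memB i c h0
      rw [← h] at h1
      exact disjoint_left.1 hAB ha.1 h1

theorem freeB [Fintype ι] (hAB : Disjoint A B) (hT : Tab (K + 1) A B H ι φ) :
    ∃ B' ⊆ B, B'.card + K * Fintype.card ι = B.card ∧ ∀ b ∈ B', ∀ i c, b ≠ φ i c := by
  classical
  set I : Finset α := (univ : Finset (ι × {c : Fin (K + 1) // c ≠ 0})).image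
    (fun p => φ p.1 p.2.1) with hI
  refine ⟨B \ I, sdiff_subset, ?_, ?_⟩
  · have h1 : I ⊆ B := by
      intro x hx
      rw [hI, mem_image] at hx
      obtain ⟨p, _, rfl⟩ := hx
      exact hT.memB _ _ fun h => p.2.2 (Fin.ext h)
    have h2 : I.card = K * Fintype.card ι := by
      rw [hI, card_image_of_injective, card_univ, Fintype.card_prod, Fintype.card_subtype_compl,
        Fintype.card_fin, Fintype.card_subtype_eq, mul_comm]
      · rfl
      · intro p p' h
        obtain ⟨h1, h2⟩ := hT.inj _ _ _ _ h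
        exact Prod.ext h1 (Subtype.ext h2)
    rw [← h2]
    exact card_sdiff_add_card_eq_card h1
  · intro b hb i c h
    rw [mem_sdiff] at hb
    by_cases h0 : c.val = 0
    · have h1 := hT.memA i c h0
      rw [← h] at h1
      exact disjoint_left.1 hAB h1 hb.1
    · have hc0 : c ≠ 0 := fun h1 => h0 (by rw [h1]; rfl)
      refine hb.2 ?_
      rw [h, hI]
      exact mem_image_of_mem (fun p : ι × {c : Fin (K + 1) // c ≠ 0} => φ p.1 p.2.1)
        (mem_univ (i, ⟨c, hc0⟩))

theorem mkrow {a : α} {S : Finset α} (haS : a ∉ S) (hS : S.card = K) :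
    ∃ w : Fin (K + 1) → α, Function.Injective w ∧ w 0 = a ∧ ∀ c, c ≠ 0 → w c ∈ S := by
  classical
  have hcard : Fintype.card {c : Fin (K + 1) // c ≠ 0} = Fintype.card {x // x ∈ S} := by
    rw [Fintype.card_subtype_compl, Fintype.card_fin, Fintype.card_subtype_eq, Fintype.card_coe,
      hS]
    rfl
  let e : {c : Fin (K + 1) // c ≠ 0} ≃ {x // x ∈ S} := Fintype.equivOfCardEq hcard
  let w : Fin (K + 1) → α := fun c => if h : c = 0 then a else (e ⟨c, h⟩ : α)
  have hw0 : w 0 = a := by
    show (if h : (0 : Fin (K + 1)) = 0 then a else (e ⟨0, h⟩ : α)) = a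
    rw [dif_pos rfl]
  have hw1 : ∀ c (h : c ≠ 0), w c = (e ⟨c, h⟩ : α) := by
    intro c h
    show (if h : c = 0 then a else (e ⟨c, h⟩ : α)) = _
    rw [dif_neg h]
  have hwS : ∀ c, c ≠ 0 → w c ∈ S := by
    intro c h
    rw [hw1 c h]
    exact (e ⟨c, h⟩).2
  refine ⟨w, ?_, hw0, hwS⟩
  intro c c' h
  by_cases h1 : c = 0
  · by_cases h2 : c' = 0
    · rw [h1, h2]
    · rw [h1, hw0] at h
      exact absurd (h ▸ hwS c' h2) haS
  · by_cases h2 : c' = 0
    · rw [h2, hw0] at h
      exact absurd (h ▸ hwS c h1) haS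
    · rw [hw1 c h1, hw1 c' h2] at h
      have h3 := e.injective (Subtype.ext h)
      exact congrArg Subtype.val h3

theorem bad_card {j : ℕ} {v : α} {D : ℝ}
    (h : ((tys (K + 1) j A B v).card : ℝ) - D ≤ ((ty (K + 1) j H A B v).card : ℝ)) :
    (((tys (K + 1) j A B v) \ (ty (K + 1) j H A B v)).card : ℝ) ≤ D := by
  have hsub : ty (K + 1) j H A B v ⊆ tys (K + 1) j A B v := filter_subset _ _
  rw [card_sdiff_of_subset hsub, Nat.cast_sub (card_le_card hsub)]
  linarith

end

theorem shf : S_SHF := by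
  intro k hk
  obtain ⟨K, rfl⟩ : ∃ K, k = K + 1 := ⟨k - 1, by omega⟩
  have hK : 2 ≤ K := by omega
  set δ : ℝ := (1 / (4 * ((K : ℝ) + 1))) ^ K / (2 * ((K : ℝ) + 1)) with hδ
  refine ⟨δ, by positivity, 8 * (K + 1) ^ 2, ?_⟩
  intro α _ N A B H hN hAB hsum hBA hA hB
  have hBA' : B.card = K * A.card := hBA
  have hNA : N = (K + 1) * A.card := by
    rw [← hsum, hBA']
    ring
  have hAbig : 8 * (K + 1) ≤ A.card := by
    by_contra hc
    push Not at hc
    have h1 : (K + 1) * A.card < (K + 1) * (8 * (K + 1)) :=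
      Nat.mul_lt_mul_of_pos_left hc (by omega)
    rw [← hNA] at h1
    have h2 : 8 * (K + 1) ^ 2 = (K + 1) * (8 * (K + 1)) := by ring
    omega
  have hApos : (0 : ℝ) < (A.card : ℝ) / 4 := by
    have : 0 < A.card := by omega
    positivity
  have hδN : δ * (N : ℝ) ^ K = ((A.card : ℝ) / 4) ^ K / (2 * ((K : ℝ) + 1)) := by
    rw [hδ, div_mul_eq_mul_div, ← mul_pow]
    congr 2
    rw [hNA]
    push_cast
    field_simp
  have hδN1 : δ * (N : ℝ) ^ K < ((A.card : ℝ) / 4) ^ K := by
    rw [hδN, div_lt_iff₀ (by positivity)]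
    have h1 : 0 < ((A.card : ℝ) / 4) ^ K := by positivity
    have h2 : (2 : ℝ) ≤ (K : ℝ) := by exact_mod_cast hK
    nlinarith
  have hδN2 : ((K : ℝ) + 1) * (δ * (N : ℝ) ^ K) < ((A.card : ℝ) / 4) ^ K := by
    rw [hδN]
    have h1 : 0 < ((A.card : ℝ) / 4) ^ K := by positivity
    have h2 : ((K : ℝ) + 1) * (((A.card : ℝ) / 4) ^ K / (2 * ((K : ℝ) + 1))) =
        ((A.card : ℝ) / 4) ^ K / 2 := by
      field_simp
    rw [h2]
    linarith
  have key : ∀ t, t ≤ A.card → ∃ (ι : Type) (_ : Fintype ι) (φ : ι → Fin (K + 1) → α),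
      Fintype.card ι = t ∧ Tab (K + 1) A B H ι φ := by
    intro t
    induction t with
    | zero =>
      intro _
      exact ⟨Empty, inferInstance, fun i => i.elim, by simp,
        ⟨fun i => i.elim, fun i => i.elim, fun i => i.elim, fun i => i.elim⟩⟩
    | succ t ih =>
      intro ht
      obtain ⟨ι, _, φ, hc, hT⟩ := ih (by omega)
      obtain ⟨A', hA'A, hA'c, hA'φ⟩ := freeA hAB hT
      obtain ⟨B', hB'B, hB'c, hB'φ⟩ := freeB hAB hT
      rw [hc] at hA'c hB'c
      have hA'pos : 0 < A'.card := by omega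
      obtain ⟨a, ha⟩ := card_pos.1 hA'pos
      have haA : a ∈ A := hA'A ha
      have hB'card : B'.card = K * A'.card := by
        have h1 : K * A.card = K * A'.card + K * t := by rw [← hA'c]; ring
        omega
      rcases lt_or_ge (2 * t) A.card with hlt | hge
      · -- few rows: add one
        have hbad := bad_card (hA a haA)
        have hch : δ * (N : ℝ) ^ K < ((B'.card.choose K : ℕ) : ℝ) := by
          refine hδN1.trans_le ?_
          have h1 : ((B'.card + 1 - K : ℕ) : ℝ) ^ K / (K.factorial : ℝ) ≤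
              ((B'.card.choose K : ℕ) : ℝ) := Nat.pow_le_choose K B'.card
          refine le_trans ?_ h1
          rw [le_div_iff₀ (by positivity)]
          have h2 : ((K.factorial : ℕ) : ℝ) ≤ (K : ℝ) ^ K := by
            exact_mod_cast Nat.factorial_le_pow K
          have h3 : (K : ℝ) * ((A.card : ℝ) / 4) ≤ ((B'.card + 1 - K : ℕ) : ℝ) := by
            have h4 : K * A.card ≤ 4 * (B'.card + 1 - K) := by
              have h5 : K * A.card ≤ K * (2 * A'.card) := Nat.mul_le_mul_left K (by omega)
              have h6 : 4 * K ≤ K * A.card := by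
                rw [mul_comm]
                exact Nat.mul_le_mul_left K (by omega)
              have h7 : K * (2 * A'.card) = 2 * B'.card := by rw [hB'card]; ring
              omega
            have h5 : ((K * A.card : ℕ) : ℝ) ≤ ((4 * (B'.card + 1 - K) : ℕ) : ℝ) := by
              exact_mod_cast h4
            rw [Nat.cast_mul, Nat.cast_mul] at h5
            push_cast at h5 ⊢
            linarith
          calc ((A.card : ℝ) / 4) ^ K * (K.factorial : ℝ) ≤
              ((A.card : ℝ) / 4) ^ K * (K : ℝ) ^ K :=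
                mul_le_mul_of_nonneg_left h2 (by positivity)
            _ = ((K : ℝ) * ((A.card : ℝ) / 4)) ^ K := by rw [mul_pow]; ring
            _ ≤ ((B'.card + 1 - K : ℕ) : ℝ) ^ K := pow_le_pow_left₀ (by positivity) h3 K
        have hlt2 : ((tys (K + 1) 0 A B a) \ (ty (K + 1) 0 H A B a)).card <
            (B'.powersetCard K).card := by
          rw [card_powersetCard]
          have : ((((tys (K + 1) 0 A B a) \ (ty (K + 1) 0 H A B a)).card : ℕ) : ℝ) <
              ((B'.card.choose K : ℕ) : ℝ) := lt_of_le_of_lt hbad hch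
          exact_mod_cast this
        obtain ⟨S, hS, hSn⟩ := exists_mem_notMem_of_card_lt_card hlt2
        rw [mem_powersetCard] at hS
        have haB : a ∉ B := fun h => disjoint_left.1 hAB haA h
        have hStys : S ∈ tys (K + 1) 0 A B a := by
          unfold tys
          rw [mem_filter, mem_powersetCard]
          refine ⟨⟨?_, hS.2⟩, ?_⟩
          · intro x hx
            have hxB := hB'B (hS.1 hx)
            rw [mem_erase, mem_union]
            exact ⟨fun h => haB (h ▸ hxB), Or.inr hxB⟩
          · rw [card_eq_zero, ← disjoint_iff_inter_eq_empty]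
            exact Disjoint.mono_left (hS.1.trans hB'B) hAB.symm
        have hSty : S ∈ ty (K + 1) 0 H A B a := by
          by_contra h
          exact hSn (mem_sdiff.2 ⟨hStys, h⟩)
        have hSH : insert a S ∈ H := (mem_filter.1 hSty).2
        obtain ⟨ι', i1, φ', h1, h2⟩ := addrow hAB hT haA (hA'φ a ha) (hS.1.trans hB'B) hS.2
          (fun x hx => hB'φ x (hS.1 hx)) hSH
        exact ⟨ι', i1, φ', by rw [h1, hc], h2⟩
      · -- many rows: shift
        have hB'K : K ≤ B'.card := by
          rw [hB'card]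
          exact Nat.le_mul_of_pos_right K hA'pos
        obtain ⟨S, hSB', hSc⟩ := exists_subset_card_eq hB'K
        have haS : a ∉ S := fun h => disjoint_left.1 hAB haA (hB'B (hSB' h))
        obtain ⟨z, hz, hz0, hz1⟩ := mkrow haS hSc
        have hzφ : ∀ c i c', z c ≠ φ i c' := by
          intro c i c'
          by_cases h : c = 0
          · rw [h, hz0]
            exact hA'φ a ha _ _
          · exact hB'φ _ (hSB' (hz1 c h)) _ _
        have hzB : ∀ c, c ≠ 0 → z c ∈ B := fun c h => hB'B (hSB' (hz1 c h))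
        by_contra hno
        have hbad : ∀ r : {c : Fin (K + 1) // c ≠ 0} ↪ ι,
            ∃ j, univ.image (row z φ r j) ∉ H := by
          intro r
          by_contra hcon
          push Not at hcon
          obtain ⟨ι', i1, φ', h1, h2⟩ := shift hT hz (by rw [hz0]; exact haA) hzB hzφ r hcon
          exact hno ⟨ι', i1, φ', by rw [h1, hc], h2⟩
        have hcount := count hAB hT hz hzφ hbad
        rw [hc] at hcount
        have hcR : ((t.descFactorial K : ℕ) : ℝ) ≤ ((K : ℝ) + 1) * (δ * (N : ℝ) ^ K) := by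
          have h1 : ((t.descFactorial K : ℕ) : ℝ) ≤ ∑ j : Fin (K + 1),
              ((tys (K + 1) (if j = 0 then 0 else 1) A B (z j) \
                ty (K + 1) (if j = 0 then 0 else 1) H A B (z j)).card : ℝ) := by
            exact_mod_cast hcount
          refine h1.trans ?_
          have h2 : ∀ j ∈ (univ : Finset (Fin (K + 1))),
              ((tys (K + 1) (if j = 0 then 0 else 1) A B (z j) \
                ty (K + 1) (if j = 0 then 0 else 1) H A B (z j)).card : ℝ) ≤
                δ * (N : ℝ) ^ K := by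
            intro j _
            by_cases hj : j = 0
            · rw [if_pos hj]
              exact bad_card (hA _ (by rw [hj, hz0]; exact haA))
            · rw [if_neg hj]
              exact bad_card (hB _ (hzB j hj))
          refine (sum_le_sum h2).trans ?_
          rw [sum_const, card_univ, Fintype.card_fin, nsmul_eq_mul]
          push_cast
          exact le_rfl
        have hlow : ((A.card : ℝ) / 4) ^ K ≤ ((t.descFactorial K : ℕ) : ℝ) := by
          have h1 : (t + 1 - K) ^ K ≤ t.descFactorial K := Nat.pow_sub_le_descFactorial t K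
          have h2 : (((t + 1 - K) ^ K : ℕ) : ℝ) ≤ ((t.descFactorial K : ℕ) : ℝ) := by
            exact_mod_cast h1
          refine le_trans ?_ h2
          rw [Nat.cast_pow]
          refine pow_le_pow_left₀ (by positivity) ?_ K
          have h3 : A.card ≤ 4 * (t + 1 - K) := by omega
          have h4 : ((A.card : ℕ) : ℝ) ≤ ((4 * (t + 1 - K) : ℕ) : ℝ) := by exact_mod_cast h3
          rw [Nat.cast_mul] at h4
          push_cast at h4 ⊢
          linarith
        linarith
  obtain ⟨ι, _, φ, hc, hT⟩ := key A.card le_rfl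
  exact full hAB hT hc hBA'

end Pool.Agent.W412.SAM
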